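import Mathlib
import Pool.Agent.R389.Defs
import Pool.Agent.U213.KV.Defs

/-!
# Ratios of successive critical values: powers of Hecke characters of CM elliptic curves and Artin twists
-/

set_option autoImplicit false

open NumberField Filter Topology IsDedekindDomain

namespace Pool.Agent.U213.RA

/-- The Hecke character `φ` of an elliptic curve `A` over `ℚ` with complex multiplication by the imaginary
quadratic field `K`, and a number field `F`, Galois over `K`. -/
structure Data (K F : Type) [Field K] [NumberField K] [Field F] [NumberField F] [Algebra K F]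
    [IsGalois K F] where
  finrank : Module.finrank ℚ K = 2
  /-- `K = ℚ(√d)` with `d < 0` -/
  d : ℤ
  d_neg : d < 0
  sqrt : ∃ y : K, y ^ 2 = d
  /-- the elliptic curve `A` : a Weierstrass equation over `ℤ` -/
  W : WeierstrassCurve ℤ
  Δ_ne : W.Δ ≠ 0
  /-- a finite set of primes of `K` which contains those at which the equation has bad reduction and
  those above the prime numbers which ramify in `F` -/
  S : Finset (HeightOneSpectrum (𝓞 K))
  bad : ∀ v : HeightOneSpectrum (𝓞 K), (W.Δ : 𝓞 K) ∈ v.asIdeal → v ∈ S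
  ram : ∀ v : HeightOneSpectrum (𝓞 K), ((discr F : ℤ) : 𝓞 K) ∈ v.asIdeal → v ∈ S
  /-- an arithmetic Frobenius at `v` -/
  frob : HeightOneSpectrum (𝓞 K) → (F ≃ₐ[K] F)
  isFrob : ∀ v ∉ S, ∃ Q : Ideal (𝓞 F), Q.IsPrime ∧ v.asIdeal.map (algebraMap (𝓞 K) (𝓞 F)) ≤ Q ∧
    ∀ y : 𝓞 F, ∃ z ∈ Q, frob v (y : F) = (y : F) ^ Nat.card (𝓞 K ⧸ v.asIdeal) + (z : F)
  /-- the Hecke character `φ` of `K` with `L(A / K, s) = L(φ, s) L(φ̄, s)`: the number `φ(v)` in `K` and
  its conjugate are the eigenvalues of Frobenius at `v`, and the conjugate is in `v` -/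
  φ : HeightOneSpectrum (𝓞 K) → 𝓞 K
  φ_norm : ∀ v ∉ S, Algebra.norm ℤ (φ v) = Nat.card (𝓞 K ⧸ v.asIdeal)
  φ_trace : ∀ v ∉ S, Algebra.trace ℤ (𝓞 K) (φ v) = KV.av W v
  φ_conj : ∀ v ∉ S, ∃ y ∈ v.asIdeal, φ v * y = (Nat.card (𝓞 K ⧸ v.asIdeal) : 𝓞 K)

namespace Data

variable {K F : Type} [Field K] [NumberField K] [Field F] [NumberField F] [Algebra K F]
  [IsGalois K F] (D : Data K F)

/-- the Galois group of `F` over `K` -/
abbrev G (_ : Data K F) : Type := F ≃ₐ[K] F

/-- the norm of `v` -/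
noncomputable def N (_ : Data K F) (v : HeightOneSpectrum (𝓞 K)) : ℂ := Nat.card (𝓞 K ⧸ v.asIdeal)

/-- the primes outside `S` -/
abbrev Pr : Type := {v : HeightOneSpectrum (𝓞 K) // v ∉ D.S}

/-- the number `√d` in `ℂ`, the `Δ` of the CM field `K` -/
noncomputable def Δ : ℂ := Complex.I * Real.sqrt (-D.d)

/-- **The twisted L-function.** For an embedding `κ` of `K` in `ℂ` the function `ℓ` is `L(κφ ^ w ⊗ f, s)`
for the character `f` of `G`, without the Euler factors at the primes in `S`: it is meromorphic on `ℂ`, and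
for `Re s > w/2 + 1` it is the exponential of the sum of `κφ(v) ^ (w k) f(Frob_v ^ k) (N v) ^ (-k s) / k`
over the primes `v ∉ S` of `K` and the integers `k ≥ 1`. -/
def IsL (w : ℕ) (κ : K →+* ℂ) (f : (F ≃ₐ[K] F) → ℂ) (ℓ : ℂ → ℂ) : Prop :=
  (∀ s, MeromorphicAt ℓ s) ∧ ∀ s : ℂ, (w : ℝ) / 2 + 1 < s.re → ∃ z : ℂ, ℓ s = Complex.exp z ∧
    HasSum (fun q : D.Pr × ℕ => κ (D.φ q.1) ^ (w * (q.2 + 1)) * f (D.frob q.1 ^ (q.2 + 1)) *
      D.N q.1 ^ (-((q.2 + 1 : ℕ) : ℂ) * s) / ((q.2 + 1 : ℕ) : ℂ)) z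

/-- the factor at infinity `Γ_ℂ(s) ^ n` of `φ ^ w ⊗ σ`, for `σ` of dimension `n` -/
noncomputable def completed (_ : Data K F) (n : ℕ) (ℓ : ℂ → ℂ) (s : ℂ) : ℂ :=
  Complex.Gammaℂ s ^ n * ℓ s

/-- **The ratio of the values at `m` and `m + 1`** of the completed L-functions of `φ ^ w ⊗ σ`, for a
representation `σ` of `G` of dimension `n` over the number field `E`, which contains `K` by `j`: for one `e`
in `E` the ratio is `τ(e) (i Δ) ^ n` at all embeddings `τ` of `E` in `ℂ`. -/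
def Ratio (w m : ℕ) {E : Type} [Field E] (j : K →+* E) {n : ℕ}
    (σ : (F ≃ₐ[K] F) →* Matrix (Fin n) (Fin n) E) : Prop :=
  ∃ e : E, ∀ τ : E →+* ℂ, ∃ ℓ : ℂ → ℂ, D.IsL w (τ.comp j) (fun g => τ (σ g).trace) ℓ ∧
    Tendsto (fun s => D.completed n ℓ s / D.completed n ℓ (m + 1)) (𝓝[≠] (m : ℂ))
      (𝓝 (τ e * (Complex.I * D.Δ) ^ n))

end Data

/-- The known case (Blasius, Harder, Kings–Sprang, Kufner: the critical values of Hecke L-functions): the
representations `σ` which are induced from linear characters `ψ` of subgroups `U` of `G`. -/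
def MonomialTheorem : Prop :=
  ∀ (K F : Type) [Field K] [NumberField K] [Field F] [NumberField F] [Algebra K F] [IsGalois K F]
    (D : Data K F) (w m : ℕ), w < 2 * m → m < w →
    ∀ (E : Type) [Field E] [NumberField E] (j : K →+* E)
    (U : Subgroup (F ≃ₐ[K] F)) (ψ : U →* Eˣ) (n : ℕ)
    (σ : (F ≃ₐ[K] F) →* Matrix (Fin n) (Fin n) E),
    (∀ g, (σ g).trace = R389.ind U (fun u => ((ψ u : Eˣ) : E)) g) → D.Ratio w m j σ

end Pool.Agent.U213.RA
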