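import Mathlib
import Pool.Agent.R389.TwoMain
import Pool.Agent.U213.EC.Desc
import Pool.Agent.U213.RA.Defs

/-!
# From the monomial representations to the irreducible constituents and back
-/

set_option autoImplicit false
set_option linter.unusedSectionVars false

open Filter Topology

namespace Pool.Agent.U213.RA

open Pool.Agent.R389 Pool.Agent.H302R2 Pool.Agent.H541R3.ART Pool.Agent.W446.AS
open Pool.Agent.U213.EC (exists_matrix toRep toRep_char exists_decomp bc bc_trace bc_det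
  mono_of_virt exists_induced extend mem_of_agree)

lemma gamma_pos {m : ℕ} (hm : 0 < m) : Complex.Gammaℂ (m : ℂ) ≠ 0 := by
  rw [Complex.Gammaℂ]
  refine mul_ne_zero (mul_ne_zero two_ne_zero ?_) (Complex.Gamma_ne_zero_of_re_pos (by simpa))
  rw [Complex.cpow_def_of_ne_zero (by
    refine mul_ne_zero two_ne_zero ?_
    exact_mod_cast Real.pi_ne_zero)]
  exact Complex.exp_ne_zero _

lemma gamma_tendsto {m : ℕ} (hm : 0 < m) :
    Tendsto Complex.Gammaℂ (𝓝[≠] (m : ℂ)) (𝓝 (Complex.Gammaℂ m)) := by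
  have h1 : ContinuousAt Complex.Gammaℂ (m : ℂ) := by
    have h2 : ContinuousAt Complex.Gamma (m : ℂ) :=
      (Complex.differentiableAt_Gamma _ fun k => by
        intro h
        have h3 := congrArg Complex.re h
        simp at h3
        have h4 : (0 : ℝ) < m := by exact_mod_cast hm
        have h5 : (0 : ℝ) ≤ k := k.cast_nonneg
        linarith).continuousAt
    have h3 : ContinuousAt (fun s : ℂ => (2 * (Real.pi : ℂ)) ^ (-s)) (m : ℂ) := by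
      refine ContinuousAt.const_cpow continuousAt_id.neg (Or.inl ?_)
      exact mul_ne_zero two_ne_zero (by exact_mod_cast Real.pi_ne_zero)
    exact (h3.const_mul 2).mul h2
  exact h1.tendsto.mono_left nhdsWithin_le_nhds

namespace Data

variable {k F₀ : Type} [Field k] [NumberField k] [Field F₀] [NumberField F₀] [Algebra k F₀]
  [IsGalois k F₀] {D : Data k F₀} {w : ℕ} {κ : k →+* ℂ}

lemma sqrt_ne : D.Δ ≠ 0 := by
  refine mul_ne_zero Complex.I_ne_zero ?_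
  have h1 : (0 : ℝ) < -D.d := by
    have := D.d_neg
    have h2 : (D.d : ℝ) < 0 := by exact_mod_cast this
    linarith
  exact_mod_cast (Real.sqrt_pos.mpr h1).ne'

lemma exp_pos (D : Data k F₀) : 0 < Monoid.exponent D.G :=
  Nat.pos_of_ne_zero Monoid.exponent_ne_zero_of_finite

lemma IsL.prod {J : Type*} (t : Finset J) (a : J → ℤ) (f : J → D.G → ℂ) (ℓ : J → ℂ → ℂ)
    (h : ∀ j ∈ t, D.IsL w κ (f j) (ℓ j)) {F : D.G → ℂ}
    (hF : ∀ g, F g = ∑ j ∈ t, (a j : ℂ) * f j g) :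
    D.IsL w κ F (fun z => ∏ j ∈ t, ℓ j z ^ a j) := by
  classical
  refine ⟨fun s => MeromorphicAt.fun_prod fun j hj => ((h j hj).1 s).fun_zpow _, fun s hs => ?_⟩
  choose! z h1 h2 using fun j (hj : j ∈ t) => (h j hj).2 s hs
  refine ⟨∑ j ∈ t, (a j : ℂ) * z j, ?_, ?_⟩
  · rw [Complex.exp_sum]
    refine Finset.prod_congr rfl fun j hj => ?_
    rw [h1 j hj, ← Complex.exp_int_mul]
  · have h3 := hasSum_sum fun j hj => (h2 j hj).mul_left (a j : ℂ)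
    have h4 : (fun q : D.Pr × ℕ => κ (D.φ q.1) ^ (w * (q.2 + 1)) * F (D.frob q.1 ^ (q.2 + 1)) *
        D.N q.1 ^ (-((q.2 + 1 : ℕ) : ℂ) * s) / ((q.2 + 1 : ℕ) : ℂ))
        = fun q : D.Pr × ℕ => ∑ j ∈ t, (a j : ℂ) * (κ (D.φ q.1) ^ (w * (q.2 + 1)) *
          f j (D.frob q.1 ^ (q.2 + 1)) *
          D.N q.1 ^ (-((q.2 + 1 : ℕ) : ℂ) * s) / ((q.2 + 1 : ℕ) : ℂ)) := by
      funext q
      rw [hF, Finset.mul_sum, Finset.sum_mul, Finset.sum_div]
      refine Finset.sum_congr rfl fun j _ => ?_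
      ring
    rw [h4]
    exact h3

lemma half_nhds (w : ℕ) : ∀ᶠ z : ℂ in 𝓝 ((w + 2 : ℕ) : ℂ), (w : ℝ) / 2 + 1 < z.re := by
  refine (isOpen_lt continuous_const Complex.continuous_re).mem_nhds ?_
  change (w : ℝ) / 2 + 1 < (((w + 2 : ℕ) : ℂ)).re
  have h1 : (0 : ℝ) ≤ w := w.cast_nonneg
  have h2 : (((w + 2 : ℕ) : ℂ)).re = (w : ℝ) + 2 := by simp
  rw [h2]
  linarith

/-- the L-function is not identically zero near any point -/
lemma IsL.order_ne {f : D.G → ℂ} {ℓ : ℂ → ℂ} (h : D.IsL w κ f ℓ) (c : ℂ) :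
    meromorphicOrderAt ℓ c ≠ ⊤ := by
  have hm : Meromorphic ℓ := h.1
  refine hm.exists_meromorphicOrderAt_ne_top_iff_forall.mp ⟨((w + 2 : ℕ) : ℂ), ?_⟩ c
  rw [meromorphicOrderAt_ne_top_iff_eventually_ne_zero (h.1 _)]
  filter_upwards [(half_nhds w).filter_mono nhdsWithin_le_nhds] with z hz
  obtain ⟨w, h2, -⟩ := h.2 z hz
  rw [h2]
  exact Complex.exp_ne_zero w

lemma IsL.unique_at {f : D.G → ℂ} {ℓ ℓ' : ℂ → ℂ} (h : D.IsL w κ f ℓ) (h' : D.IsL w κ f ℓ') {s : ℂ}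
    (hs : (w : ℝ) / 2 + 1 < s.re) : ℓ s = ℓ' s := by
  obtain ⟨z, h2, h3⟩ := h.2 s hs
  obtain ⟨z', h2', h3'⟩ := h'.2 s hs
  rw [h2, h2', h3.unique h3']

lemma IsL.ne_at {f : D.G → ℂ} {ℓ : ℂ → ℂ} (h : D.IsL w κ f ℓ) {s : ℂ}
    (hs : (w : ℝ) / 2 + 1 < s.re) : ℓ s ≠ 0 := by
  obtain ⟨z, h2, -⟩ := h.2 s hs
  rw [h2]
  exact Complex.exp_ne_zero z

/-- uniqueness of the L-function -/
lemma IsL.unique {f : D.G → ℂ} {ℓ ℓ' : ℂ → ℂ} (h : D.IsL w κ f ℓ) (h' : D.IsL w κ f ℓ') (c : ℂ) :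
    ∀ᶠ z in 𝓝[≠] c, ℓ z = ℓ' z := by
  have hm : Meromorphic (ℓ - ℓ') := fun s => (h.1 s).sub (h'.1 s)
  have h1 : meromorphicOrderAt (ℓ - ℓ') ((w + 2 : ℕ) : ℂ) = ⊤ := by
    rw [meromorphicOrderAt_eq_top_iff]
    filter_upwards [(half_nhds w).filter_mono nhdsWithin_le_nhds] with z hz
    rw [Pi.sub_apply, h.unique_at h' hz, sub_self]
  have h2 : meromorphicOrderAt (ℓ - ℓ') c = ⊤ := by
    by_contra h3
    exact hm.exists_meromorphicOrderAt_ne_top_iff_forall.mp ⟨c, h3⟩ _ h1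
  rw [meromorphicOrderAt_eq_top_iff] at h2
  filter_upwards [h2] with z hz
  exact sub_eq_zero.mp hz

lemma exists_ext {E : Type} [Field E] [NumberField E] (j : k →+* E) (κ : k →+* ℂ) :
    ∃ τ : E →+* ℂ, τ.comp j = κ := by
  let _ : Algebra k E := j.toAlgebra
  obtain ⟨τ, hτ⟩ := extend (E := k) (E' := E) κ
  exact ⟨τ, RingHom.ext hτ⟩

/-- the L-functions of the virtual characters exist -/
lemma exists_isL {m : ℕ} {E : Type} [Field E] {j : k →+* E} {ζ : E}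
    (hζ : IsPrimitiveRoot ζ (Monoid.exponent D.G)) (τ₀ : E →+* ℂ)
    (hmon : ∀ (U : Subgroup D.G) (ψ : U →* Eˣ) (n : ℕ) (ρ : D.G →* Matrix (Fin n) (Fin n) E),
      (∀ σ, (ρ σ).trace = ind U (fun u => ((ψ u : Eˣ) : E)) σ) → D.Ratio w m j ρ)
    {f : D.G → ℂ} (hf : Virt f) : ∃ ℓ, D.IsL w (τ₀.comp j) f ℓ := by
  have hf' := mono_of_virt hf
  clear hf
  have hc : CharZero E := (RingHom.charZero_iff τ₀.injective).mpr inferInstance
  induction hf' using AddSubgroup.closure_induction with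
  | mem s hs =>
    obtain ⟨U, ψ, rfl, -⟩ := hs
    obtain ⟨ψE, hψE⟩ := lift_char hζ τ₀ U ψ
    obtain ⟨n, ρ, hρ⟩ := exists_induced U ψE
    obtain ⟨e, he⟩ := hmon U ψE n ρ hρ
    obtain ⟨ℓ, h1, -⟩ := he τ₀
    refine ⟨ℓ, ?_⟩
    have h2 : (fun σ => τ₀ (ρ σ).trace) = ind U (fun h => ((ψ h : ℂˣ) : ℂ)) := by
      funext g
      rw [hρ, ind_map]
      congr 1
      funext u
      exact hψE u
    rwa [h2] at h1
  | zero =>
    exact ⟨_, IsL.prod (∅ : Finset ℕ) (fun _ => 0) (fun _ => 0) (fun _ _ => 1) (by simp)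
      (F := 0) (by simp)⟩
  | add a b _ _ ha hb =>
    obtain ⟨ℓ, h⟩ := ha
    obtain ⟨ℓ', h'⟩ := hb
    refine ⟨_, IsL.prod (Finset.univ : Finset Bool) (fun _ => 1) (fun i => cond i a b)
      (fun i => cond i ℓ ℓ') (fun i _ => by cases i <;> assumption) (fun g => ?_)⟩
    simp
  | neg a _ ha =>
    obtain ⟨ℓ, h⟩ := ha
    refine ⟨_, IsL.prod (Finset.univ : Finset Unit) (fun _ => -1) (fun _ => a) (fun _ => ℓ)
      (fun _ _ => h) (fun g => ?_)⟩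
    simp

/-- the product of the L-functions of the constituents -/
lemma isL_decomp {ℓ : (D.G → ℂ) → ℂ → ℂ} (hℓ : ∀ χ ∈ Irr D.G, D.IsL w κ χ (ℓ χ)) {f : D.G → ℂ}
    {m : (D.G → ℂ) → ℕ} (hm : IsDecomp f m) :
    D.IsL w κ f (fun s => ∏ᶠ χ ∈ Irr D.G, ℓ χ s ^ m χ) := by
  have h1 : (fun s => ∏ᶠ χ ∈ Irr D.G, ℓ χ s ^ m χ)
      = fun s => ∏ χ ∈ irrF D.G, ℓ χ s ^ ((m χ : ℕ) : ℤ) := by
    funext s
    rw [finprod_irr (fun χ => ℓ χ s ^ m χ)]
    exact Finset.prod_congr rfl fun χ _ => by rw [zpow_natCast]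
  rw [h1]
  refine IsL.prod (irrF D.G) (fun χ => ((m χ : ℕ) : ℤ)) (fun χ => χ) ℓ
    (fun χ hχ => hℓ χ (mem_irrF.mp hχ)) fun g => ?_
  have h2 : f g = ∑ᶠ χ ∈ Irr D.G, (m χ : ℂ) * χ g := hm g
  rw [h2, finsum_irr (fun χ => (m χ : ℂ) * χ g)]
  push_cast
  rfl

/-- the constant -/
noncomputable def C (D : Data k F₀) (m : ℕ) : ℂ :=
  Complex.I * D.Δ * Complex.Gammaℂ (m + 1) / Complex.Gammaℂ m

lemma C_ne {m : ℕ} (hm : 0 < m) : D.C m ≠ 0 := by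
  have h1 : Complex.Gammaℂ ((m : ℂ) + 1) ≠ 0 := by
    have := gamma_pos (Nat.succ_pos m)
    simpa using this
  exact div_ne_zero (mul_ne_zero (mul_ne_zero Complex.I_ne_zero sqrt_ne) h1) (gamma_pos hm)

lemma tendsto_completed {m : ℕ} (hm : 0 < m) (n : ℕ) {ℓ : ℂ → ℂ} (h : ℓ (m + 1) ≠ 0) (e : ℂ) :
    Tendsto (fun s => D.completed n ℓ s / D.completed n ℓ (m + 1)) (𝓝[≠] (m : ℂ))
      (𝓝 (e * (Complex.I * D.Δ) ^ n)) ↔
    Tendsto ℓ (𝓝[≠] (m : ℂ)) (𝓝 (e * (D.C m ^ n * ℓ (m + 1)))) := by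
  have h0 := gamma_pos hm
  have h1 : Complex.Gammaℂ ((m : ℂ) + 1) ≠ 0 := by
    have := gamma_pos (Nat.succ_pos m)
    simpa using this
  have hG := gamma_tendsto hm
  have hne : ∀ᶠ s in 𝓝[≠] (m : ℂ), Complex.Gammaℂ s ≠ 0 := hG.eventually_ne h0
  constructor
  · intro h2
    have h3 := h2.mul ((hG.pow n).inv₀ (pow_ne_zero n h0) |>.const_mul
      (Complex.Gammaℂ (m + 1) ^ n * ℓ (m + 1)))
    have h4 : e * (Complex.I * D.Δ) ^ n * (Complex.Gammaℂ (m + 1) ^ n * ℓ (m + 1) *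
        (Complex.Gammaℂ m ^ n)⁻¹) = e * (D.C m ^ n * ℓ (m + 1)) := by
      rw [C, div_pow, mul_pow (Complex.I * D.Δ)]
      field_simp
    rw [h4] at h3
    refine h3.congr' ?_
    filter_upwards [hne] with s hs
    rw [completed, completed]
    field_simp
  · intro h2
    have h3 := ((hG.pow n).mul h2).div_const (Complex.Gammaℂ (m + 1) ^ n * ℓ (m + 1))
    have h4 : Complex.Gammaℂ m ^ n * (e * (D.C m ^ n * ℓ (m + 1))) /
        (Complex.Gammaℂ (m + 1) ^ n * ℓ (m + 1)) = e * (Complex.I * D.Δ) ^ n := by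
      rw [C, div_pow, mul_pow (Complex.I * D.Δ)]
      field_simp
    rw [h4] at h3
    exact h3

/-- the periods for all embeddings -/
noncomputable def P (D : Data k F₀) {E : Type} [Field E] (j : k →+* E) (m : ℕ)
    (ℓ : (k →+* ℂ) → (D.G → ℂ) → ℂ → ℂ) (deg : (D.G → ℂ) → ℕ) (τ : E →+* ℂ) (χ : D.G → ℂ) : ℂ :=
  D.C m ^ deg χ * ℓ (τ.comp j) χ (m + 1)

lemma prod_P {E : Type} [Field E] (j : k →+* E) (m : ℕ)
    (ℓ : (k →+* ℂ) → (D.G → ℂ) → ℂ → ℂ) {deg : (D.G → ℂ) → ℕ}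
    (hdeg : ∀ χ ∈ Irr D.G, χ 1 = deg χ) (τ : E →+* ℂ) {f : D.G → ℂ} {μ : (D.G → ℂ) → ℕ}
    (hμ : IsDecomp f μ) {n : ℕ} (hn : f 1 = n) :
    ∏ᶠ χ ∈ Irr D.G, D.P j m ℓ deg τ χ ^ μ χ
      = D.C m ^ n * ∏ᶠ χ ∈ Irr D.G, ℓ (τ.comp j) χ (m + 1) ^ μ χ := by
  classical
  have h1 : n = ∑ χ ∈ irrF D.G, μ χ * deg χ := by
    have h2 : f 1 = ∑ᶠ χ ∈ Irr D.G, (μ χ : ℂ) * χ 1 := hμ 1
    rw [hn, finsum_irr (fun χ => (μ χ : ℂ) * χ 1)] at h2
    have h3 : ∀ χ ∈ irrF D.G, (μ χ : ℂ) * χ 1 = ((μ χ * deg χ : ℕ) : ℂ) := by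
      intro χ hχ
      rw [hdeg χ (mem_irrF.mp hχ)]
      push_cast
      rfl
    rw [Finset.sum_congr rfl h3] at h2
    exact_mod_cast h2
  rw [finprod_irr (fun χ => D.P j m ℓ deg τ χ ^ μ χ),
    finprod_irr (fun χ => ℓ (τ.comp j) χ (m + 1) ^ μ χ), h1, ← Finset.prod_pow_eq_pow_sum,
    ← Finset.prod_mul_distrib]
  refine Finset.prod_congr rfl fun χ _ => ?_
  rw [P, mul_pow, ← pow_mul, mul_comm (deg χ)]

/-- the ratio in terms of the constituents -/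
theorem ratio_iff {m : ℕ} (hm0 : 0 < m) (hwm : w < 2 * m) {E : Type} [Field E] {j : k →+* E}
    {ℓ : (k →+* ℂ) → (D.G → ℂ) → ℂ → ℂ} (hℓ : ∀ κ, ∀ χ ∈ Irr D.G, D.IsL w κ χ (ℓ κ χ))
    {deg : (D.G → ℂ) → ℕ} (hdeg : ∀ χ ∈ Irr D.G, χ 1 = deg χ) {n : ℕ}
    (ρ : D.G →* Matrix (Fin n) (Fin n) E) :
    D.Ratio w m j ρ ↔ R389.Deligne (fun τ : E →+* ℂ => ℓ (τ.comp j)) (D.P j m ℓ deg) m
      (fun g => (ρ g).trace) := by
  have hs : (w : ℝ) / 2 + 1 < (((m : ℂ) + 1)).re := by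
    have h1 : (w : ℝ) < 2 * m := by exact_mod_cast hwm
    simp
    linarith
  have hone : ∀ τ : E →+* ℂ, τ (ρ 1).trace = n := by
    intro τ
    rw [map_one, Matrix.trace_one, Fintype.card_fin, map_natCast]
  constructor
  · rintro ⟨e, he⟩
    refine ⟨e, fun τ μ hμ => ?_⟩
    obtain ⟨ℓ', h1, h2⟩ := he τ
    have h3 := isL_decomp (hℓ (τ.comp j)) hμ
    rw [tendsto_completed hm0 n (h1.ne_at hs)] at h2
    rw [prod_P j m ℓ hdeg τ hμ (hone τ)]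
    have h4 := h1.unique_at h3 hs
    simp only [h4] at h2
    exact h2.congr' (h1.unique h3 m)
  · rintro ⟨e, he⟩
    refine ⟨e, fun τ => ?_⟩
    obtain ⟨μ, hμ⟩ := exists_decomp (bc τ ρ)
    have h1 : (fun g => (bc τ ρ g).trace) = fun g => τ (ρ g).trace :=
      funext fun g => bc_trace τ ρ g
    rw [h1] at hμ
    have h3 := isL_decomp (hℓ (τ.comp j)) hμ
    refine ⟨_, h3, ?_⟩
    have h2 := he τ μ hμ
    rw [prod_P j m ℓ hdeg τ hμ (hone τ)] at h2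
    rw [tendsto_completed hm0 n (h3.ne_at hs)]
    exact h2

theorem ratio_descend {m : ℕ} {E E' : Type} [Field E] [NumberField E] [Field E'] [NumberField E']
    [Algebra E E'] {j : k →+* E} {n : ℕ} (hm0 : 0 < m) (hwm : w < 2 * m)
    (ρ : D.G →* Matrix (Fin n) (Fin n) E)
    (h : D.Ratio w m ((algebraMap E E').comp j) ((algebraMap E E').mapMatrix.toMonoidHom.comp ρ)) :
    D.Ratio w m j ρ := by
  have hs : (w : ℝ) / 2 + 1 < (((m : ℂ) + 1)).re := by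
    have h1 : (w : ℝ) < 2 * m := by exact_mod_cast hwm
    simp
    linarith
  obtain ⟨e', he'⟩ := h
  have key : ∀ τ : E' →+* ℂ, ∃ ℓ : ℂ → ℂ,
      D.IsL w (τ.comp ((algebraMap E E').comp j)) (fun σ => τ (algebraMap E E' (ρ σ).trace)) ℓ ∧
      Tendsto (fun s => D.completed n ℓ s / D.completed n ℓ (m + 1)) (𝓝[≠] (m : ℂ))
        (𝓝 (τ e' * (Complex.I * D.Δ) ^ n)) := by
    intro τ
    obtain ⟨ℓ, h1, h2⟩ := he' τ
    refine ⟨ℓ, ?_, h2⟩
    convert h1 using 4 with σ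
    change _ = ((ρ σ).map (algebraMap E E')).trace
    rw [Matrix.trace, Matrix.trace, map_sum]
    rfl
  obtain ⟨e, he⟩ := mem_of_agree (E := E) e' fun τ τ' hττ' => by
    obtain ⟨ℓ, h1, h2⟩ := key τ
    obtain ⟨ℓ', h1', h2'⟩ := key τ'
    have h3 : τ.comp (algebraMap E E') = τ'.comp (algebraMap E E') := RingHom.ext hττ'
    have h4 : (fun σ => τ' (algebraMap E E' (ρ σ).trace))
        = fun σ => τ (algebraMap E E' (ρ σ).trace) := funext fun σ => (hττ' _).symm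
    have h5 : τ'.comp ((algebraMap E E').comp j) = τ.comp ((algebraMap E E').comp j) := by
      rw [← RingHom.comp_assoc, ← RingHom.comp_assoc, h3]
    rw [h4, h5] at h1'
    rw [tendsto_completed hm0 n (h1.ne_at hs)] at h2
    rw [tendsto_completed hm0 n (h1'.ne_at hs)] at h2'
    have h6 := tendsto_nhds_unique (h2.congr' (h1.unique h1' m)) h2'
    rw [h1.unique_at h1' hs] at h6
    exact mul_right_cancel₀ (mul_ne_zero (pow_ne_zero n (C_ne hm0)) (h1'.ne_at hs)) h6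
  refine ⟨e, fun τ => ?_⟩
  obtain ⟨τ', hτ'⟩ := extend (E' := E') τ
  obtain ⟨ℓ, h1, h2⟩ := key τ'
  have h3 : τ'.comp (algebraMap E E') = τ := RingHom.ext hτ'
  refine ⟨ℓ, ?_, ?_⟩
  · rw [← RingHom.comp_assoc, h3] at h1
    simp only [hτ'] at h1
    exact h1
  · rw [← he, hτ'] at h2
    exact h2

end Data

end Pool.Agent.U213.RA
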